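import Mathlib
import Pool.Agent.Helper485_VRC.Final

/-!
# MP_61a31f_al: property (VRC) for amalgams over virtually cyclic subgroups

If `P` and `Q` have (VRC) and `R ≤ P`, `S ≤ Q` are isomorphic virtually cyclic subgroups, then the
amalgamated free product of `P` and `Q` identifying `R` with `S` has (VRC).
-/

set_option autoImplicit false

open Pool.Agent.Helper485_VRC

namespace Pool.Agent.Results.MP_61a31f_al.Amalgams

/-- the amalgamated free product of `P` and `Q`, identifying the subgroups `R` and `S` by `e`: the
quotient of the free product by the normal subgroup generated by the elements `r * (e r)⁻¹` -/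
def Amalgam {P Q : Type} [Group P] [Group Q] (R : Subgroup P) (S : Subgroup Q) (e : R ≃* S) :
    Type :=
  Monoid.Coprod P Q ⧸ Subgroup.normalClosure
    (Set.range fun r : R => (Monoid.Coprod.inl (r : P) : Monoid.Coprod P Q) *
      (Monoid.Coprod.inr ((e r : S) : Q))⁻¹)

instance {P Q : Type} [Group P] [Group Q] (R : Subgroup P) (S : Subgroup Q) (e : R ≃* S) :
    Group (Amalgam R S e) :=
  inferInstanceAs (Group (Monoid.Coprod P Q ⧸ Subgroup.normalClosure
    (Set.range fun r : R => (Monoid.Coprod.inl (r : P) : Monoid.Coprod P Q) *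
      (Monoid.Coprod.inr ((e r : S) : Q))⁻¹)))

section

variable {P Q : Type} [Group P] [Group Q] (R : Subgroup P) (S : Subgroup Q) (e : R ≃* S)

/-- the quotient map -/
def proj : Monoid.Coprod P Q →* Amalgam R S e :=
  QuotientGroup.mk' (Subgroup.normalClosure
    (Set.range fun r : R => (Monoid.Coprod.inl (r : P) : Monoid.Coprod P Q) *
      (Monoid.Coprod.inr ((e r : S) : Q))⁻¹))

theorem isAmalgam : IsAmalgam R.subtype (S.subtype.comp e.toMonoidHom)
    ((proj R S e).comp Monoid.Coprod.inl) ((proj R S e).comp Monoid.Coprod.inr) where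
  comm r := by
    have h : proj R S e ((Monoid.Coprod.inl (r : P) : Monoid.Coprod P Q) *
        (Monoid.Coprod.inr ((e r : S) : Q))⁻¹) = 1 :=
      (QuotientGroup.eq_one_iff _).2 (Subgroup.subset_normalClosure ⟨r, rfl⟩)
    rw [map_mul, map_inv, mul_inv_eq_one] at h
    exact h
  gen := by
    rw [MonoidHom.range_comp, MonoidHom.range_comp, ← Subgroup.map_sup,
      Monoid.Coprod.range_inl_sup_range_inr, ← MonoidHom.range_eq_map]
    exact MonoidHom.range_eq_top.2 (QuotientGroup.mk'_surjective _)
  lift M _ a b h := by
    have hle : Subgroup.normalClosure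
        (Set.range fun r : R => (Monoid.Coprod.inl (r : P) : Monoid.Coprod P Q) *
          (Monoid.Coprod.inr ((e r : S) : Q))⁻¹) ≤ (Monoid.Coprod.lift a b).ker := by
      apply Subgroup.normalClosure_le_normal
      rintro _ ⟨r, rfl⟩
      show _ ∈ (Monoid.Coprod.lift a b).ker
      rw [MonoidHom.mem_ker, map_mul, map_inv, Monoid.Coprod.lift_apply_inl,
        Monoid.Coprod.lift_apply_inr, mul_inv_eq_one]
      exact h r
    exact ⟨QuotientGroup.lift _ (Monoid.Coprod.lift a b) hle, fun p => rfl, fun q => rfl⟩

end

/-- **Property (VRC) for amalgams over virtually cyclic subgroups.** If `P` and `Q` are groups with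
property (VRC), then for all isomorphic virtually cyclic subgroups `R` of `P` and `S` of `Q` the
amalgamated free product of `P` and `Q` along `R = S` has property (VRC). -/
theorem result :
    ∀ (P Q : Type) [Group P] [Group Q], VRC P → VRC Q →
      ∀ (R : Subgroup P) (S : Subgroup Q) (e : R ≃* S), VirtuallyCyclic R →
        VRC (Amalgam R S e) := by
  intro P Q _ _ hP hQ R S e hR
  exact main (isAmalgam R S e) hP hQ R.subtype_injective
    (S.subtype_injective.comp e.injective) hR

end Pool.Agent.Results.MP_61a31f_al.Amalgams
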